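import Pool.Agent.Helper89.Hia.Defs

/-!
MP_5ace61_lc, block N: there is a sigma-centered interval algebra which is not hereditary.
-/

open Set Filter Topology

namespace Pool.Agent.Hia

/-- the points -/
private abbrev Pt := ℚ × ℕ

/-- the subalgebra of the sets decided by a filter -/
private def decided (F : Filter Pt) : BooleanSubalgebra (Set Pt) where
  carrier := {a | a ∈ F ∨ aᶜ ∈ F}
  supClosed' := by
    rintro a (ha | ha) b (hb | hb)
    · exact Or.inl (mem_of_superset ha subset_union_left)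
    · exact Or.inl (mem_of_superset ha subset_union_left)
    · exact Or.inl (mem_of_superset hb subset_union_right)
    · right
      show (a ∪ b)ᶜ ∈ F
      rw [compl_union]
      exact inter_mem ha hb
  infClosed' := by
    rintro a (ha | ha) b (hb | hb)
    · exact Or.inl (inter_mem ha hb)
    · right
      show (a ∩ b)ᶜ ∈ F
      rw [compl_inter]
      exact mem_of_superset hb subset_union_right
    · right
      show (a ∩ b)ᶜ ∈ F
      rw [compl_inter]
      exact mem_of_superset ha subset_union_left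
    · right
      show (a ∩ b)ᶜ ∈ F
      rw [compl_inter]
      exact mem_of_superset ha subset_union_left
  compl_mem' := by
    rintro a (ha | ha)
    · right
      rwa [compl_compl]
    · exact Or.inl ha
  bot_mem' := by
    right
    simp

private theorem mem_decided {F : Filter Pt} {a : Set Pt} :
    a ∈ decided F ↔ a ∈ F ∨ aᶜ ∈ F := Iff.rfl

/-- the cut at a real number -/
private def cut (x : ℝ) : Set Pt := {p | (p.1 : ℝ) < x}

/-- the generators of the subalgebra -/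
private def gens : Set (Set Pt) := {s | ∃ x : ℝ, Irrational x ∧ s = cut x} ∪ {s | ∃ p, s = {p}}

private noncomputable def leftF (x : ℝ) : Filter Pt := comap (fun p : Pt => (p.1 : ℝ)) (𝓝[<] x)
private noncomputable def rightF (x : ℝ) : Filter Pt := comap (fun p : Pt => (p.1 : ℝ)) (𝓝[>] x)
private noncomputable def ratF (q : ℚ) : Filter Pt :=
  comap (fun p : Pt => (p.1 : ℝ)) (𝓝[≠] (q : ℝ)) ⊔ map (fun i : ℕ => ((q, i) : Pt)) atTop

private theorem mem_leftF {x : ℝ} {a : Set Pt} :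
    a ∈ leftF x ↔ ∃ δ > 0, ∀ p : Pt, x - δ < p.1 → (p.1 : ℝ) < x → p ∈ a := by
  unfold leftF
  rw [mem_comap]
  constructor
  · rintro ⟨t, ht, hta⟩
    obtain ⟨l, hl, hlt⟩ := (mem_nhdsLT_iff_exists_Ioo_subset).mp ht
    exact ⟨x - l, sub_pos.mpr hl, fun p h1 h2 => hta (hlt ⟨by linarith, h2⟩)⟩
  · rintro ⟨δ, hδ, h⟩
    refine ⟨Ioo (x - δ) x, Ioo_mem_nhdsLT (by linarith), fun p hp => h p hp.1 hp.2⟩

private theorem mem_rightF {x : ℝ} {a : Set Pt} :
    a ∈ rightF x ↔ ∃ δ > 0, ∀ p : Pt, x < p.1 → (p.1 : ℝ) < x + δ → p ∈ a := by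
  unfold rightF
  rw [mem_comap]
  constructor
  · rintro ⟨t, ht, hta⟩
    obtain ⟨l, hl, hlt⟩ := (mem_nhdsGT_iff_exists_Ioo_subset).mp ht
    exact ⟨l - x, sub_pos.mpr hl, fun p h1 h2 => hta (hlt ⟨h1, by linarith⟩)⟩
  · rintro ⟨δ, hδ, h⟩
    refine ⟨Ioo x (x + δ), Ioo_mem_nhdsGT (by linarith), fun p hp => h p hp.1 hp.2⟩

private theorem mem_ratF {q : ℚ} {a : Set Pt} :
    a ∈ ratF q ↔ (∃ δ > 0, ∀ p : Pt, p.1 ≠ q → |(p.1 : ℝ) - q| < δ → p ∈ a) ∧
      ∃ N, ∀ i ≥ N, ((q, i) : Pt) ∈ a := by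
  unfold ratF
  rw [mem_sup, mem_comap, mem_map, mem_atTop_sets]
  refine and_congr ⟨?_, ?_⟩ Iff.rfl
  · rintro ⟨t, ht, hta⟩
    obtain ⟨δ, hδ, h⟩ := Metric.mem_nhdsWithin_iff.mp ht
    refine ⟨δ, hδ, fun p h1 h2 => hta (h ⟨?_, ?_⟩)⟩
    · rwa [Metric.mem_ball, Real.dist_eq]
    · simpa using h1
  · rintro ⟨δ, hδ, h⟩
    refine ⟨Metric.ball (q : ℝ) δ ∩ {(q : ℝ)}ᶜ, ?_, fun p hp => h p ?_ ?_⟩
    · exact Metric.mem_nhdsWithin_iff.mpr ⟨δ, hδ, Subset.rfl⟩
    · simpa using hp.2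
    · have := hp.1
      rwa [Metric.mem_ball, Real.dist_eq] at this

private theorem leftF_gens (x : ℝ) : gens ⊆ decided (leftF x) := by
  rintro s (⟨y, -, rfl⟩ | ⟨p, rfl⟩)
  · rcases le_or_gt x y with h | h
    · left
      exact mem_leftF.mpr ⟨1, one_pos, fun p _ h2 => lt_of_lt_of_le h2 h⟩
    · right
      refine mem_leftF.mpr ⟨x - y, sub_pos.mpr h, fun p h1 _ h3 => ?_⟩
      have h3 : (p.1 : ℝ) < y := h3
      linarith
  · right
    rcases lt_or_ge (p.1 : ℝ) x with h | h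
    · refine mem_leftF.mpr ⟨x - p.1, sub_pos.mpr h, fun p' h1 _ h3 => ?_⟩
      rw [mem_singleton_iff] at h3
      subst h3
      linarith
    · refine mem_leftF.mpr ⟨1, one_pos, fun p' _ h2 h3 => ?_⟩
      rw [mem_singleton_iff] at h3
      subst h3
      linarith

private theorem rightF_gens (x : ℝ) : gens ⊆ decided (rightF x) := by
  rintro s (⟨y, -, rfl⟩ | ⟨p, rfl⟩)
  · rcases le_or_gt y x with h | h
    · right
      refine mem_rightF.mpr ⟨1, one_pos, fun p h1 _ h3 => ?_⟩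
      have h3 : (p.1 : ℝ) < y := h3
      linarith
    · left
      refine mem_rightF.mpr ⟨y - x, sub_pos.mpr h, fun p _ h2 => ?_⟩
      show (p.1 : ℝ) < y
      linarith
  · right
    rcases lt_or_ge x (p.1 : ℝ) with h | h
    · refine mem_rightF.mpr ⟨p.1 - x, sub_pos.mpr h, fun p' _ h2 h3 => ?_⟩
      rw [mem_singleton_iff] at h3
      subst h3
      linarith
    · refine mem_rightF.mpr ⟨1, one_pos, fun p' h1 _ h3 => ?_⟩
      rw [mem_singleton_iff] at h3
      subst h3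
      linarith

private theorem ratF_gens (q : ℚ) : gens ⊆ decided (ratF q) := by
  rintro s (⟨y, hy, rfl⟩ | ⟨p, rfl⟩)
  · have hne : (q : ℝ) ≠ y := fun h => hy ⟨q, h⟩
    rcases lt_or_gt_of_ne hne with h | h
    · left
      refine mem_ratF.mpr ⟨⟨y - q, sub_pos.mpr h, fun p _ h2 => ?_⟩, 0, fun _ _ => h⟩
      show (p.1 : ℝ) < y
      have := (abs_lt.mp h2).2
      linarith
    · right
      refine mem_ratF.mpr ⟨⟨q - y, sub_pos.mpr h, fun p _ h2 h3 => ?_⟩, 0,
        fun _ _ h3 => ?_⟩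
      · have h3 : (p.1 : ℝ) < y := h3
        have := (abs_lt.mp h2).1
        linarith
      · have h3 : (q : ℝ) < y := h3
        linarith
  · right
    refine mem_ratF.mpr ⟨?_, p.2 + 1, fun i hi h3 => ?_⟩
    · by_cases h : p.1 = q
      · refine ⟨1, one_pos, fun p' h1 _ h3 => ?_⟩
        rw [mem_singleton_iff] at h3
        subst h3
        exact h1 h
      · have : (0 : ℝ) < |(p.1 : ℝ) - q| := abs_pos.mpr (sub_ne_zero.mpr (by exact_mod_cast h))
        refine ⟨_, this, fun p' _ h2 h3 => ?_⟩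
        rw [mem_singleton_iff] at h3
        subst h3
        exact lt_irrefl _ h2
    · rw [mem_singleton_iff] at h3
      subst h3
      exact absurd hi (by simp)

private theorem not_both {F : Filter Pt} [F.NeBot] {a : Set Pt} (h1 : a ∈ F) (h2 : aᶜ ∈ F) :
    False := by
  have := inter_mem h1 h2
  rw [inter_compl_self] at this
  exact empty_notMem F this

private instance (x : ℝ) : (leftF x).NeBot := by
  rw [← empty_mem_iff_bot.not.trans neBot_iff.symm, mem_leftF]
  rintro ⟨δ, hδ, h⟩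
  obtain ⟨q, h1, h2⟩ := exists_rat_btwn (show x - δ < x by linarith)
  exact h (q, 0) h1 h2

private instance (x : ℝ) : (rightF x).NeBot := by
  rw [← empty_mem_iff_bot.not.trans neBot_iff.symm, mem_rightF]
  rintro ⟨δ, hδ, h⟩
  obtain ⟨q, h1, h2⟩ := exists_rat_btwn (show x < x + δ by linarith)
  exact h (q, 0) h1 h2

private instance (q : ℚ) : (ratF q).NeBot := by
  rw [← empty_mem_iff_bot.not.trans neBot_iff.symm, mem_ratF]
  rintro ⟨-, N, h⟩
  exact h N le_rfl

private theorem cut_left (x : ℝ) : cut x ∈ leftF x :=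
  mem_leftF.mpr ⟨1, one_pos, fun _ _ h2 => h2⟩

private theorem cut_right (x : ℝ) : (cut x)ᶜ ∈ rightF x :=
  mem_rightF.mpr ⟨1, one_pos, fun p h1 _ h3 => by
    have h3 : (p.1 : ℝ) < x := h3
    linarith⟩

/-- The subalgebra is not generated by a chain. -/
private theorem core (H : Set (Set Pt)) (hH : IsChain (· ≤ ·) H)
    (hHA : H ⊆ BooleanSubalgebra.closure gens)
    (hAH : ∀ a ∈ gens, a ∈ BooleanSubalgebra.closure H) : False := by
  have hL : ∀ x, ∀ h ∈ H, h ∈ leftF x ∨ hᶜ ∈ leftF x := fun x h hh =>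
    (BooleanSubalgebra.closure_le.mpr (leftF_gens x)) (hHA hh)
  have hR : ∀ x, ∀ h ∈ H, h ∈ rightF x ∨ hᶜ ∈ rightF x := fun x h hh =>
    (BooleanSubalgebra.closure_le.mpr (rightF_gens x)) (hHA hh)
  have hQ : ∀ q, ∀ h ∈ H, h ∈ ratF q ∨ hᶜ ∈ ratF q := fun x h hh =>
    (BooleanSubalgebra.closure_le.mpr (ratF_gens x)) (hHA hh)
  -- an element of `H` which jumps at the irrational number `x`
  have hjump : ∀ x : ℝ, Irrational x → ∃ h ∈ H, (h ∈ leftF x ∧ hᶜ ∈ rightF x) ∨
      (hᶜ ∈ leftF x ∧ h ∈ rightF x) := by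
    intro x hx
    by_contra hno
    push Not at hno
    have hsub : H ⊆ decided (leftF x ⊔ rightF x) := by
      intro h hh
      have h1 := hno h hh
      rcases hL x h hh with h2 | h2 <;> rcases hR x h hh with h3 | h3
      · exact Or.inl (mem_sup.mpr ⟨h2, h3⟩)
      · exact absurd h3 (h1.1 h2)
      · exact absurd h3 (h1.2 h2)
      · exact Or.inr (mem_sup.mpr ⟨h2, h3⟩)
    rcases (BooleanSubalgebra.closure_le.mpr hsub) (hAH (cut x) (Or.inl ⟨x, hx, rfl⟩)) with h | h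
    · exact not_both (mem_sup.mp h).2 (cut_right x)
    · exact not_both (cut_left x) (mem_sup.mp h).1
  -- an element of `H` which separates the point `(q, 0)` from its limit behaviour
  have hsep : ∀ q : ℚ, ∃ h ∈ H, (((q, 0) : Pt) ∈ h ∧ hᶜ ∈ ratF q) ∨
      (((q, 0) : Pt) ∉ h ∧ h ∈ ratF q) := by
    intro q
    by_contra hno
    push Not at hno
    have hsub : H ⊆ decided (ratF q ⊔ pure ((q, 0) : Pt)) := by
      intro h hh
      have h1 := hno h hh
      by_cases h2 : ((q, 0) : Pt) ∈ h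
      · rcases hQ q h hh with h3 | h3
        · exact Or.inl (mem_sup.mpr ⟨h3, h2⟩)
        · exact absurd h3 (h1.1 h2)
      · rcases hQ q h hh with h3 | h3
        · exact absurd h3 (h1.2 h2)
        · exact Or.inr (mem_sup.mpr ⟨h3, h2⟩)
    have hp : ({((q, 0) : Pt)} : Set Pt)ᶜ ∈ ratF q := by
      refine mem_ratF.mpr ⟨⟨1, one_pos, fun p h1 _ h3 => ?_⟩, 1, fun i hi h3 => ?_⟩
      · rw [mem_singleton_iff] at h3
        subst h3
        exact h1 rfl
      · rw [mem_singleton_iff, Prod.mk.injEq] at h3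
        omega
    rcases (BooleanSubalgebra.closure_le.mpr hsub) (hAH {((q, 0) : Pt)} (Or.inr ⟨_, rfl⟩)) with h | h
    · exact not_both (mem_sup.mp h).1 hp
    · exact (mem_pure.mp (mem_sup.mp h).2) rfl
  -- the sets for the category argument
  let X : ℕ → Bool → Set ℝ := fun n o => {x | ∃ h ∈ H, ∀ p : Pt,
    ((x - 1 / (n + 1) < p.1 → (p.1 : ℝ) < x → (p ∈ h ↔ o = true)) ∧
      (x < p.1 → (p.1 : ℝ) < x + 1 / (n + 1) → (p ∈ h ↔ o = false)))}
  have hcover : ⋃ i : ℚ ⊕ (ℕ × Bool), (Sum.elim (fun q : ℚ => ({(q : ℝ)} : Set ℝ))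
      (fun no : ℕ × Bool => closure (X no.1 no.2)) i) = univ := by
    rw [eq_univ_iff_forall]
    intro x
    rw [mem_iUnion]
    by_cases hx : Irrational x
    · obtain ⟨h, hh, hcase⟩ := hjump x hx
      rcases hcase with ⟨h1, h2⟩ | ⟨h1, h2⟩
      · obtain ⟨δ₁, hδ₁, h1⟩ := mem_leftF.mp h1
        obtain ⟨δ₂, hδ₂, h2⟩ := mem_rightF.mp h2
        obtain ⟨n, hn⟩ := exists_nat_one_div_lt (lt_min hδ₁ hδ₂)
        refine ⟨Sum.inr (n, true), subset_closure ⟨h, hh, fun p => ⟨fun a b => ?_, fun a b => ?_⟩⟩⟩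
        · have := lt_of_lt_of_le hn (min_le_left _ _)
          simpa using h1 p (by linarith) b
        · have := lt_of_lt_of_le hn (min_le_right _ _)
          simpa using h2 p a (by linarith)
      · obtain ⟨δ₁, hδ₁, h1⟩ := mem_leftF.mp h1
        obtain ⟨δ₂, hδ₂, h2⟩ := mem_rightF.mp h2
        obtain ⟨n, hn⟩ := exists_nat_one_div_lt (lt_min hδ₁ hδ₂)
        refine ⟨Sum.inr (n, false), subset_closure ⟨h, hh, fun p => ⟨fun a b => ?_, fun a b => ?_⟩⟩⟩
        · have := lt_of_lt_of_le hn (min_le_left _ _)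
          simpa using h1 p (by linarith) b
        · have := lt_of_lt_of_le hn (min_le_right _ _)
          simpa using h2 p a (by linarith)
    · unfold Irrational at hx
      push Not at hx
      obtain ⟨q, rfl⟩ := hx
      exact ⟨Sum.inl q, rfl⟩
  obtain ⟨i, hi⟩ := nonempty_interior_of_iUnion_of_closed (f := fun i : ℚ ⊕ (ℕ × Bool) =>
      (Sum.elim (fun q : ℚ => ({(q : ℝ)} : Set ℝ))
      (fun no : ℕ × Bool => closure (X no.1 no.2)) i)) (by
    rintro (q | no)
    · exact isClosed_singleton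
    · exact isClosed_closure) hcover
  rcases i with q | ⟨n, o⟩
  · simp only [Sum.elim_inl, interior_singleton] at hi
    exact hi.ne_empty rfl
  simp only [Sum.elim_inr] at hi
  -- a rational point in the interior
  obtain ⟨y, hy⟩ := hi
  obtain ⟨r₀, hr₀, hball₀⟩ := Metric.isOpen_iff.mp isOpen_interior y hy
  obtain ⟨q, hq1, hq2⟩ := exists_rat_btwn (show y < y + r₀ by linarith)
  have hqint : (q : ℝ) ∈ interior (closure (X n o)) := hball₀ (by
    rw [Metric.mem_ball, Real.dist_eq, abs_lt]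
    constructor <;> linarith)
  obtain ⟨r₁, hr₁, hball⟩ := Metric.isOpen_iff.mp isOpen_interior (q : ℝ) hqint
  have hn0 : (0 : ℝ) < 1 / (n + 1) := by positivity
  -- points of `X n o` in small intervals
  have hpt : ∀ a b : ℝ, a < b → (q : ℝ) - r₁ < a → b < q + r₁ → ∃ x ∈ X n o, a < x ∧ x < b := by
    intro a b hab ha hb
    have hm : (a + b) / 2 ∈ closure (X n o) := interior_subset (hball (by
      rw [Metric.mem_ball, Real.dist_eq, abs_lt]
      constructor <;> linarith))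
    obtain ⟨x, hx, hxd⟩ := Metric.mem_closure_iff.mp hm ((b - a) / 2) (by linarith)
    rw [Real.dist_eq, abs_lt] at hxd
    exact ⟨x, hx, by linarith [hxd.1, hxd.2], by linarith [hxd.1, hxd.2]⟩
  obtain ⟨h, hh, hcase⟩ := hsep q
  -- the radius
  have key : ∃ ε : ℝ, 0 < ε ∧ ε < r₁ ∧ ε < 1 / (n + 1) ∧
      ((((q, 0) : Pt) ∈ h ∧ ∀ p : Pt, p.1 ≠ q → |(p.1 : ℝ) - q| < ε → p ∉ h) ∨
       (((q, 0) : Pt) ∉ h ∧ ∀ p : Pt, p.1 ≠ q → |(p.1 : ℝ) - q| < ε → p ∈ h)) := by
    rcases hcase with ⟨h1, h2⟩ | ⟨h1, h2⟩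
    · obtain ⟨⟨δ, hδ, h3⟩, -⟩ := mem_ratF.mp h2
      refine ⟨min δ (min r₁ (1 / (n + 1))) / 2, by positivity, ?_, ?_, Or.inl ⟨h1, fun p a b =>
        h3 p a (lt_trans b ?_)⟩⟩
      · have := min_le_right δ (min r₁ (1 / ((n : ℝ) + 1)))
        have h4 := min_le_left r₁ (1 / ((n : ℝ) + 1))
        have h5 : 0 < min δ (min r₁ (1 / ((n : ℝ) + 1))) := by positivity
        linarith
      · have := min_le_right δ (min r₁ (1 / ((n : ℝ) + 1)))
        have h4 := min_le_right r₁ (1 / ((n : ℝ) + 1))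
        have h5 : 0 < min δ (min r₁ (1 / ((n : ℝ) + 1))) := by positivity
        linarith
      · have := min_le_left δ (min r₁ (1 / ((n : ℝ) + 1)))
        have h5 : 0 < min δ (min r₁ (1 / ((n : ℝ) + 1))) := by positivity
        linarith
    · obtain ⟨⟨δ, hδ, h3⟩, -⟩ := mem_ratF.mp h2
      refine ⟨min δ (min r₁ (1 / (n + 1))) / 2, by positivity, ?_, ?_, Or.inr ⟨h1, fun p a b =>
        h3 p a (lt_trans b ?_)⟩⟩
      · have := min_le_right δ (min r₁ (1 / ((n : ℝ) + 1)))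
        have h4 := min_le_left r₁ (1 / ((n : ℝ) + 1))
        have h5 : 0 < min δ (min r₁ (1 / ((n : ℝ) + 1))) := by positivity
        linarith
      · have := min_le_right δ (min r₁ (1 / ((n : ℝ) + 1)))
        have h4 := min_le_right r₁ (1 / ((n : ℝ) + 1))
        have h5 : 0 < min δ (min r₁ (1 / ((n : ℝ) + 1))) := by positivity
        linarith
      · have := min_le_left δ (min r₁ (1 / ((n : ℝ) + 1)))
        have h5 : 0 < min δ (min r₁ (1 / ((n : ℝ) + 1))) := by positivity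
        linarith
  obtain ⟨ε, hε, hεr, hεn, hcase⟩ := key
  -- comparison of two members of the chain
  have hcomp : ∀ h' ∈ H, ∀ p p' : Pt, p ∈ h → p ∉ h' → p' ∈ h' → p' ∉ h → False := by
    intro h' hh' p p' h1 h2 h3 h4
    rcases hH.total hh hh' with h5 | h5
    · exact h2 (h5 h1)
    · exact h4 (h5 h3)
  have hleft : ∃ x ∈ X n o, (q : ℝ) - ε < x ∧ x < q :=
    hpt _ _ (by linarith) (by linarith) (by linarith)
  have hright : ∃ x ∈ X n o, (q : ℝ) < x ∧ x < q + ε :=
    hpt _ _ (by linarith) (by linarith) (by linarith)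
  obtain ⟨x₁, ⟨g₁, hg₁, hx₁⟩, hx₁a, hx₁b⟩ := hleft
  obtain ⟨x₂, ⟨g₂, hg₂, hx₂⟩, hx₂a, hx₂b⟩ := hright
  obtain ⟨q₁, hq₁a, hq₁b⟩ := exists_rat_btwn hx₁a
  obtain ⟨q₂, hq₂a, hq₂b⟩ := exists_rat_btwn hx₂b
  have e₁ : ((q₁, 0) : Pt) ∈ g₁ ↔ o = true :=
    (hx₁ (q₁, 0)).1 (by show x₁ - 1 / (n + 1) < q₁; linarith) hq₁b
  have e₁' : ((q, 0) : Pt) ∈ g₁ ↔ o = false :=
    (hx₁ (q, 0)).2 hx₁b (by show (q : ℝ) < x₁ + 1 / (n + 1); linarith)
  have e₂ : ((q₂, 0) : Pt) ∈ g₂ ↔ o = false :=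
    (hx₂ (q₂, 0)).2 hq₂a (by show (q₂ : ℝ) < x₂ + 1 / (n + 1); linarith)
  have e₂' : ((q, 0) : Pt) ∈ g₂ ↔ o = true :=
    (hx₂ (q, 0)).1 (by show x₂ - 1 / (n + 1) < q; linarith) hx₂a
  have hq₁ne : q₁ ≠ q := by
    rintro rfl
    linarith
  have hq₂ne : q₂ ≠ q := by
    rintro rfl
    linarith
  have hq₁abs : |(q₁ : ℝ) - q| < ε := by rw [abs_lt]; constructor <;> linarith
  have hq₂abs : |(q₂ : ℝ) - q| < ε := by rw [abs_lt]; constructor <;> linarith
  cases o
  · simp only [Bool.false_eq_true, iff_false, iff_true] at e₁ e₁' e₂ e₂'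
    rcases hcase with ⟨h1, h2⟩ | ⟨h1, h2⟩
    · exact hcomp g₂ hg₂ (q, 0) (q₂, 0) h1 e₂' e₂ (h2 _ hq₂ne hq₂abs)
    · exact hcomp g₁ hg₁ (q₁, 0) (q, 0) (h2 _ hq₁ne hq₁abs) e₁ e₁' h1
  · simp only [Bool.true_eq_false, iff_false, iff_true] at e₁ e₁' e₂ e₂'
    rcases hcase with ⟨h1, h2⟩ | ⟨h1, h2⟩
    · exact hcomp g₁ hg₁ (q, 0) (q₁, 0) h1 e₁' e₁ (h2 _ hq₁ne hq₁abs)
    · exact hcomp g₂ hg₂ (q₂, 0) (q, 0) (h2 _ hq₂ne hq₂abs) e₂ e₂' h1

/-- the chain generating the large algebra -/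
private def bigL : Set (Set Pt) := {s | ∃ x : ℝ, Irrational x ∧ s = cut x} ∪
  {s | ∃ (q : ℚ) (j : ℕ), s = {p : Pt | p.1 < q ∨ (p.1 = q ∧ p.2 < j)}}

private theorem bigL_lower {s : Set Pt} (hs : s ∈ bigL) {p p' : Pt} (hp : p ∈ s)
    (h : p'.1 < p.1 ∨ (p'.1 = p.1 ∧ p'.2 ≤ p.2)) : p' ∈ s := by
  rcases hs with ⟨x, -, rfl⟩ | ⟨q, j, rfl⟩
  · have hp : (p.1 : ℝ) < x := hp
    show (p'.1 : ℝ) < x
    rcases h with h | h
    · have : (p'.1 : ℝ) < p.1 := by exact_mod_cast h
      linarith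
    · rw [h.1]
      exact hp
  · rcases hp with hp | hp
    · left
      rcases h with h | h
      · exact h.trans hp
      · rw [h.1]
        exact hp
    · rcases h with h | h
      · left
        rw [← hp.1]
        exact h
      · right
        exact ⟨h.1.trans hp.1, lt_of_le_of_lt h.2 hp.2⟩

private theorem bigL_chain {s t : Set Pt} (hs : s ∈ bigL) (ht : t ∈ bigL) : s ⊆ t ∨ t ⊆ s := by
  by_contra hno
  push Not at hno
  obtain ⟨h1, h2⟩ := hno
  obtain ⟨p, hp, hpt⟩ := not_subset.mp h1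
  obtain ⟨p', hp', hps⟩ := not_subset.mp h2
  have htot : (p'.1 < p.1 ∨ (p'.1 = p.1 ∧ p'.2 ≤ p.2)) ∨ (p.1 < p'.1 ∨ (p.1 = p'.1 ∧ p.2 ≤ p'.2)) := by
    rcases lt_trichotomy p'.1 p.1 with h | h | h
    · exact Or.inl (Or.inl h)
    · rcases le_total p'.2 p.2 with h' | h'
      · exact Or.inl (Or.inr ⟨h, h'⟩)
      · exact Or.inr (Or.inr ⟨h.symm, h'⟩)
    · exact Or.inr (Or.inl h)
  rcases htot with h | h
  · exact hps (bigL_lower hs hp h)
  · exact hpt (bigL_lower ht hp' h)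

private theorem gens_sub : gens ⊆ BooleanSubalgebra.closure bigL := by
  rintro s (⟨x, hx, rfl⟩ | ⟨⟨q, j⟩, rfl⟩)
  · exact BooleanSubalgebra.subset_closure (Or.inl ⟨x, hx, rfl⟩)
  · have h1 : {p : Pt | p.1 < q ∨ (p.1 = q ∧ p.2 < j + 1)} ∈ BooleanSubalgebra.closure bigL :=
      BooleanSubalgebra.subset_closure (Or.inr ⟨q, j + 1, rfl⟩)
    have h2 : {p : Pt | p.1 < q ∨ (p.1 = q ∧ p.2 < j)} ∈ BooleanSubalgebra.closure bigL :=
      BooleanSubalgebra.subset_closure (Or.inr ⟨q, j, rfl⟩)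
    have h3 := BooleanSubalgebra.sdiff_mem h1 h2
    have h4 : ({((q, j) : Pt)} : Set Pt) = {p : Pt | p.1 < q ∨ (p.1 = q ∧ p.2 < j + 1)} \
        {p : Pt | p.1 < q ∨ (p.1 = q ∧ p.2 < j)} := by
      ext ⟨a, b⟩
      simp only [mem_singleton_iff, Prod.mk.injEq, Set.mem_sdiff, mem_ofPred_eq]
      constructor
      · rintro ⟨rfl, rfl⟩
        refine ⟨Or.inr ⟨rfl, by omega⟩, ?_⟩
        rintro (h | h)
        · exact lt_irrefl _ h
        · omega
      · rintro ⟨h | ⟨rfl, h⟩, h'⟩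
        · exact absurd (Or.inl h) h'
        · refine ⟨rfl, ?_⟩
          have : ¬ b < j := fun hb => h' (Or.inr ⟨rfl, hb⟩)
          omega
    rw [h4]
    exact h3

private theorem mem_inf {L : Set (Set Pt)} (p : Pt)
    (F : Finset (BooleanSubalgebra.closure L)) (hF : ∀ c ∈ F, p ∈ (c : Set Pt)) :
    p ∈ ((F.inf id : BooleanSubalgebra.closure L) : Set Pt) := by
  classical
  induction F using Finset.induction_on with
  | empty => simp
  | insert a s _ ih =>
    rw [Finset.inf_insert, BooleanSubalgebra.val_inf]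
    exact ⟨hF a (Finset.mem_insert_self a s),
      ih fun c hc => hF c (Finset.mem_insert_of_mem hc)⟩

theorem exists_nonhereditary : ∃ (B : Type) (_ : BooleanAlgebra B),
    IsSigmaCentered B ∧ IsIntervalAlgebra B ∧ ¬ IsHereditary B := by
  refine ⟨BooleanSubalgebra.closure bigL, inferInstance, ?_, ?_, ?_⟩
  · -- sigma-centered
    obtain ⟨f, hf⟩ := exists_surjective_nat Pt
    refine ⟨fun n => {c | f n ∈ (c : Set Pt)}, fun n F hF h0 => ?_, ?_⟩
    · have h1 := mem_inf (f n) F fun c hc => hF hc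
      rw [h0] at h1
      exact h1
    · ext b
      rw [mem_iUnion, mem_ofPred_eq]
      constructor
      · intro hb
        have : (b : Set Pt).Nonempty := by
          rw [nonempty_iff_ne_empty]
          exact fun h => hb (Subtype.ext h)
        obtain ⟨p, hp⟩ := this
        obtain ⟨n, rfl⟩ := hf p
        exact ⟨n, hp⟩
      · rintro ⟨n, hn⟩ rfl
        exact hn
  · -- interval algebra
    refine ⟨{c | (c : Set Pt) ∈ bigL}, fun a ha b hb _ => bigL_chain ha hb, ?_⟩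
    rw [eq_top_iff]
    intro b _
    have hle : BooleanSubalgebra.closure bigL ≤
        (BooleanSubalgebra.closure {c : BooleanSubalgebra.closure bigL | (c : Set Pt) ∈ bigL}).map
          (BooleanSubalgebra.closure bigL).subtype := by
      rw [BooleanSubalgebra.closure_le]
      intro s hs
      exact ⟨⟨s, BooleanSubalgebra.subset_closure hs⟩,
        BooleanSubalgebra.subset_closure (by exact hs), rfl⟩
    obtain ⟨a, ha, hab⟩ := hle b.2
    have : a = b := Subtype.ext hab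
    rwa [← this]
  · -- not hereditary
    intro hher
    obtain ⟨C, hC, hCtop⟩ := hher ((BooleanSubalgebra.closure gens).comap
      (BooleanSubalgebra.closure bigL).subtype)
    let f : BoundedLatticeHom ((BooleanSubalgebra.closure gens).comap
        (BooleanSubalgebra.closure bigL).subtype) (Set Pt) :=
      (BooleanSubalgebra.closure bigL).subtype.comp (BooleanSubalgebra.subtype _)
    refine core (f '' C) ?_ ?_ ?_
    · rintro _ ⟨a, ha, rfl⟩ _ ⟨b, hb, rfl⟩ _
      rcases hC.total ha hb with h | h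
      · exact Or.inl h
      · exact Or.inr h
    · rintro _ ⟨a, _, rfl⟩
      exact a.2
    · intro s hs
      have hsB : s ∈ BooleanSubalgebra.closure bigL := gens_sub hs
      have hmem : (⟨⟨s, hsB⟩, BooleanSubalgebra.subset_closure hs⟩ :
          (BooleanSubalgebra.closure gens).comap (BooleanSubalgebra.closure bigL).subtype) ∈
          BooleanSubalgebra.closure C := by
        rw [hCtop]
        exact BooleanSubalgebra.mem_top
      have hle : BooleanSubalgebra.closure C ≤ (BooleanSubalgebra.closure (f '' C)).comap f := by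
        rw [BooleanSubalgebra.closure_le]
        intro c hc
        exact BooleanSubalgebra.subset_closure ⟨c, hc, rfl⟩
      exact hle hmem

end Pool.Agent.Hia
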